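import Pool.Agent.Y825.GC.Petersen

/-! # Faithful circuit covers: no lower bound on the weights is sufficient

The Petersen graph has a weight `p` with values `1` (on two disjoint pentagons) and `2` (on the
matching between them) such that all multiples `c p` are eulerian and admissible, and `(G, c p)`
has a faithful circuit cover if and only if `c` is even.

Definitions (namespace `Pool.Agent.Y825.GC`, file `Pool/Agent/Y825/GC/Petersen.lean`):
`Bridgeless G`, `Eulerian G w`, `Admissible G w`, `FaithfulCover G w` are the notions of the
problem for a simple graph `G` and a weight `w` of the pairs of vertices. -/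

set_option autoImplicit false

namespace Pool.Agent.Results.MP_5dc923_co.AllLowerBounds

open Pool.Agent.Y825.GC

open scoped Classical in
/-- There are a graph `G` (the Petersen graph) and a weight `p` of its edges with:
1. `G` is bridgeless, cubic, and all its edge cuts have at least three edges;
2. `p` takes only the values `1` and `2` on the edges;
3. for every `c`, the weight `c p` is eulerian and admissible, and `(G, c p)` has a faithful
   circuit cover if and only if `c` is even.
In particular, 4. for every `m` there is an eulerian admissible weight of `G` with all values in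
`{k, 2 k}` for some `k ≥ m` which has no faithful circuit cover. -/
theorem result : ∃ (G : SimpleGraph (Fin 10)) (p : Sym2 (Fin 10) → ℕ),
    (Bridgeless G ∧ (∀ v, (G.neighborSet v).ncard = 3) ∧
      ∀ S : Finset (Fin 10), S.Nonempty → Sᶜ.Nonempty →
        3 ≤ (Finset.univ.filter fun q : Fin 10 × Fin 10 =>
          q.1 ∈ S ∧ q.2 ∉ S ∧ G.Adj q.1 q.2).card) ∧
    (∀ a b, G.Adj a b → p s(a, b) = 1 ∨ p s(a, b) = 2) ∧
    (∀ c : ℕ, Eulerian G (fun e => c * p e) ∧ Admissible G (fun e => c * p e) ∧
      (FaithfulCover G (fun e => c * p e) ↔ Even c)) ∧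
    ∀ m : ℕ, ∃ w : Sym2 (Fin 10) → ℕ, (∃ k, m ≤ k ∧
        ∀ a b, G.Adj a b → w s(a, b) = k ∨ w s(a, b) = 2 * k) ∧
      Eulerian G w ∧ Admissible G w ∧ ¬ FaithfulCover G w := by
  refine ⟨Gr, wt, ⟨no_bridge, cubic, three_edges⟩, fun a b h => bs_val a b h,
    fun c => ⟨eulerian c, admissible c, cover_iff c⟩, fun m => ?_⟩
  refine ⟨fun e => (2 * m + 1) * wt e, ⟨2 * m + 1, by omega, fun a b h => ?_⟩,
    eulerian _, admissible _, fun h => ?_⟩
  · show (2 * m + 1) * wt s(a, b) = _ ∨ (2 * m + 1) * wt s(a, b) = _
    rw [wt_mk]
    rcases bs_val a b h with h1 | h1 <;> rw [h1]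
    · left
      ring
    · right
      ring
  · have h1 := (cover_iff _).1 h
    rw [Nat.even_iff] at h1
    omega

end Pool.Agent.Results.MP_5dc923_co.AllLowerBounds
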